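import Pool.Agent.WU.Final

/-!
# A binary weak universal pattern generator

There is a cellular automaton `F` over two states, even a reversible one, and a finite configuration
`x` such that every finite binary word appears in some `F^n(x)`.

Sketch of the construction (files `Pool/Agent/WU/`).  Cells are grouped by self-synchronising binary
code words of length 156 (slots), which carry tokens and base 4096 digits.  From left to right the
configuration is: a stack of blocks of 12 cells with arbitrary contents, a marker, a run of slots
growing to the right, zeros.  On the run a head increments a base 4096 counter and sends the digits
of the old value to the left end; when a digit reaches the marker it is pushed on the stack and the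
marker moves by 12 cells.  In the bursts number `k`, `13 ∣ k`, all digits of `k` are pushed at times
which do not depend on `k`.  The automaton is a composition of involutions (exchanges of pairs of
words in a context, maps of slot contents) and of a conveyor; it moves cells of the stack by a
bijection which is read backward: for every target word at the top of the stack the digits to be
pushed can be chosen, last digit first.
-/

namespace Pool.Agent.Results.MP_67ba6e_lc.BinaryGenerator

/-- `F` is a one-dimensional cellular automaton over the state set `S`: it is given by a local rule
`f` on a finite neighbourhood `r 0 < r 1 < ... < r (k-1)` of integers. -/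
def IsCA {S : Type} (F : (ℤ → S) → (ℤ → S)) : Prop :=
  ∃ (k : ℕ) (r : Fin k → ℤ) (f : (Fin k → S) → S),
    StrictMono r ∧ ∀ x i, F x i = f (fun j => x (i + r j))

/-- The finite word `w` appears in the configuration `y`. -/
def Appears {S : Type} (w : List S) (y : ℤ → S) : Prop :=
  ∃ j : ℤ, ∀ (l : ℕ) (h : l < w.length), y (j + 1 + l) = w[l]

/-- `(F, x)` is a weak universal pattern generator over the state set `S` with quiescent state
`z`: `F` is a cellular automaton for which `z` is quiescent, `x` is a finite configuration and every
finite word over `S` appears in `F^n(x)` for some `n`. -/
def IsWUPG {S : Type} (z : S) (F : (ℤ → S) → (ℤ → S)) (x : ℤ → S) : Prop :=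
  IsCA F ∧ F (fun _ => z) = (fun _ => z) ∧ {i | x i ≠ z}.Finite ∧
    ∀ w : List S, ∃ n : ℕ, Appears w (F^[n] x)

/-- There are a cellular automaton `F` over the state set `{false, true}` with `false` quiescent,
bijective on configurations, and a finite configuration `x`, such that `(F, x)` is a weak universal
pattern generator. -/
theorem result : ∃ (F : (ℤ → Bool) → (ℤ → Bool)) (x : ℤ → Bool),
    IsWUPG false F x ∧ Function.Bijective F := by
  obtain ⟨F, x, h, hF⟩ := Pool.Agent.WU.main
  exact ⟨F, x, h, hF⟩

end Pool.Agent.Results.MP_67ba6e_lc.BinaryGenerator
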