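import Mathlib

/-!
# Weak universal pattern generators with any composite number of states other than four

For every finite state set `S` whose cardinality is composite and greater than four and every
state `z` of `S` there is a reversible cellular automaton `F` over `S`, with the two-cell
neighbourhood `{0, 1}` and with `z` quiescent, and a configuration `x` with exactly one cell not in
state `z`, such that every finite word over `S` appears in some `F^n(x)`.

The automaton is a partitioned one.  Write `S = B × ZMod s`.  A cell holds a tape symbol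
`β : B` and a signal `σ : ZMod s`.  In one step the pair is replaced by `(R v β, v)` where
`v = σ + ε β`, and the signals then move one cell to the left.  Time sequences of signals seen by
consecutive cells in front of the seed are obtained from each other by a transducer which acts on
words as an odometer (level transitively), and the self-replicating structure of the group
generated by the moves of the tape makes every tape word reachable.
-/

namespace Pool.Agent.Results.MP_67ba6e_lc.CompositeStates

open Function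

set_option linter.unusedSectionVars false

/-! ### Definitions used in the statement -/

/-- `F` is a one-dimensional cellular automaton over the state set `S`: it is given by a local rule
`f` on a finite neighbourhood `r 0 < r 1 < ... < r (k-1)` of integers. -/
def IsCA {S : Type} (F : (ℤ → S) → (ℤ → S)) : Prop :=
  ∃ (k : ℕ) (r : Fin k → ℤ) (f : (Fin k → S) → S),
    StrictMono r ∧ ∀ x i, F x i = f (fun j => x (i + r j))

/-- The finite word `w` appears in the configuration `y`. -/
def Appears {S : Type} (w : List S) (y : ℤ → S) : Prop :=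
  ∃ j : ℤ, ∀ (l : ℕ) (h : l < w.length), y (j + 1 + l) = w[l]

/-- `(F, x)` is a weak universal pattern generator over the state set `S` with quiescent state
`z`: `F` is a cellular automaton for which `z` is quiescent, `x` is a finite configuration and every
finite word over `S` appears in `F^n(x)` for some `n`. -/
def IsWUPG {S : Type} (z : S) (F : (ℤ → S) → (ℤ → S)) (x : ℤ → S) : Prop :=
  IsCA F ∧ F (fun _ => z) = (fun _ => z) ∧ {i | x i ≠ z}.Finite ∧
    ∀ w : List S, ∃ n : ℕ, Appears w (F^[n] x)

/-! ### Words of fixed length -/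

/-- Words of length `n` over `A`, built by appending letters at the end. -/
def Tup (A : Type) : ℕ → Type
  | 0 => Unit
  | n + 1 => Tup A n × A

instance tupFintype (A : Type) [Fintype A] : ∀ n, Fintype (Tup A n)
  | 0 => inferInstanceAs (Fintype Unit)
  | n + 1 =>
    haveI := tupFintype A n
    inferInstanceAs (Fintype (Tup A n × A))

/-- The first `n` values of a sequence. -/
def tup {A : Type} (f : ℕ → A) : ∀ n, Tup A n
  | 0 => ()
  | n + 1 => (tup f n, f n)

theorem tup_congr {A : Type} {f g : ℕ → A} : ∀ {n : ℕ}, (∀ i < n, f i = g i) → tup f n = tup g n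
  | 0, _ => rfl
  | n + 1, h => by
    have h1 : tup f n = tup g n := tup_congr fun i hi => h i (Nat.lt_succ_of_lt hi)
    have h2 : f n = g n := h n (Nat.lt_succ_self n)
    simp only [tup, h1, h2]

theorem tup_inj {A : Type} {f g : ℕ → A} : ∀ {n : ℕ}, tup f n = tup g n → ∀ i < n, f i = g i
  | 0, _ => fun i hi => absurd hi (Nat.not_lt_zero i)
  | n + 1, h => by
    intro i hi
    have h1 : tup f n = tup g n := congrArg Prod.fst h
    have h2 : f n = g n := congrArg Prod.snd h
    rcases Nat.lt_succ_iff_lt_or_eq.mp hi with hi | rfl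
    · exact tup_inj h1 i hi
    · exact h2

/-! ### Skew products over a cycle -/

section Skew

variable {s : ℕ} [NeZero s] {α : Type} [Fintype α]

/-- Skew product of `f` with the translations `g`. -/
def skew (f : α → α) (g : α → ZMod s) : α × ZMod s → α × ZMod s :=
  fun q => (f q.1, q.2 + g q.1)

theorem skew_injective {f : α → α} (hf : Injective f) (g : α → ZMod s) :
    Injective (skew f g) := by
  rintro ⟨a, z⟩ ⟨a', z'⟩ h
  simp only [skew, Prod.mk.injEq] at h
  obtain ⟨h1, h2⟩ := h
  have h1' := hf h1
  subst h1'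
  simpa using h2

theorem skew_iterate (f : α → α) (g : α → ZMod s) (a : α) (z : ZMod s) (k : ℕ) :
    (skew f g)^[k] (a, z) = (f^[k] a, z + ∑ i ∈ Finset.range k, g (f^[i] a)) := by
  induction k with
  | zero => simp
  | succ k ih =>
    rw [Function.iterate_succ_apply', ih, Finset.sum_range_succ, Function.iterate_succ_apply']
    simp only [skew, add_assoc]

theorem skew_transitive {f : α → α} (hf : Injective f) (a₀ : α)
    (ht : ∀ a, ∃ k, f^[k] a₀ = a) (g : α → ZMod s) (hu : IsUnit (∑ a, g a)) (z₀ : ZMod s) :
    ∀ q : α × ZMod s, ∃ k, (skew f g)^[k] (a₀, z₀) = q := by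
  classical
  have hper : a₀ ∈ Function.periodicPts f := by
    have := (Function.Injective.mem_periodicPts (f := f) hf a₀)
    exact this
  set p := Function.minimalPeriod f a₀ with hp
  have hppos : 0 < p := Function.minimalPeriod_pos_of_mem_periodicPts hper
  have hsum : ∑ i ∈ Finset.range p, g (f^[i] a₀) = ∑ a, g a := by
    refine Finset.sum_nbij (fun i => f^[i] a₀) ?_ ?_ ?_ ?_
    · intro i _; exact Finset.mem_univ _
    · intro i hi j hj hij
      have hi' : i < p := by simpa using hi
      have hj' : j < p := by simpa using hj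
      exact (Function.iterate_eq_iterate_iff_of_lt_minimalPeriod hi' hj').mp hij
    · intro a _
      obtain ⟨k, hk⟩ := ht a
      refine ⟨k % p, ?_, ?_⟩
      · simpa using Nat.mod_lt k hppos
      · simp only
        rw [hp, Function.iterate_mod_minimalPeriod_eq, hk]
    · intro i _; rfl
  have hround : ∀ z : ZMod s, (skew f g)^[p] (a₀, z) = (a₀, z + ∑ a, g a) := by
    intro z
    rw [skew_iterate, hsum, hp, Function.iterate_minimalPeriod]
  have hrounds : ∀ (t : ℕ) (z : ZMod s),
      (skew f g)^[p * t] (a₀, z) = (a₀, z + t * ∑ a, g a) := by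
    intro t
    induction t with
    | zero => intro z; simp
    | succ t ih =>
      intro z
      rw [Nat.mul_succ, Function.iterate_add_apply, hround, ih]
      congr 1
      push_cast
      ring
  rintro ⟨a, z⟩
  obtain ⟨j, hj⟩ := ht a
  obtain ⟨U, hU⟩ := hu
  set c := ∑ i ∈ Finset.range j, g (f^[i] a₀) with hc
  set t : ℕ := ((z - c - z₀) * ((U⁻¹ : (ZMod s)ˣ) : ZMod s)).val with ht'
  refine ⟨j + p * t, ?_⟩
  rw [Function.iterate_add_apply, hrounds, skew_iterate, hj, ← hc]
  congr 1
  rw [ht', ZMod.natCast_zmod_val, ← hU, mul_assoc, Units.inv_mul]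
  ring

end Skew

/-! ### The automaton -/

section Automaton

variable {B : Type} [Fintype B] {s : ℕ} [NeZero s]
variable (R : ZMod s → Equiv.Perm B) (ε : B → ZMod s) (o : B) (a : ZMod s)

/-- New tape symbol of a cell. -/
def tr (β : B) (σ : ZMod s) : B := R (σ + ε β) β

/-- Signal emitted by a cell. -/
def out (β : B) (σ : ZMod s) : ZMod s := σ + ε β

/-- The cellular automaton. -/
def auto (x : ℤ → B × ZMod s) : ℤ → B × ZMod s :=
  fun i => (tr R ε (x i).1 (x i).2, out ε (x (i + 1)).1 (x (i + 1)).2)

/-- Tape symbols of a cell which starts with `o` and receives the signals `f 0, f 1, ...`. -/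
def states (f : ℕ → ZMod s) : ℕ → B
  | 0 => o
  | j + 1 => tr R ε (states f j) (f j)

/-- The sequence of signals received by cell `-k`, starting at time `k`. -/
def sig : ℕ → ℕ → ZMod s
  | 0 => fun j => if j = 0 then a else 0
  | k + 1 => fun j => out ε (states R ε o (sig k) j) (sig k j)

/-- The tape symbol of cell `-k` before it receives its signal number `j`. -/
def bet (k j : ℕ) : B := states R ε o (sig R ε o a k) j

theorem bet_succ (k j : ℕ) :
    bet R ε o a k (j + 1) = tr R ε (bet R ε o a k j) (sig R ε o a k j) := rfl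

theorem sig_succ (k j : ℕ) :
    sig R ε o a (k + 1) j = out ε (bet R ε o a k j) (sig R ε o a k j) := rfl

theorem bet_zero (k : ℕ) : bet R ε o a k 0 = o := rfl

theorem sig_zero_succ (j : ℕ) : sig R ε o a 0 (j + 1) = 0 := by
  simp [sig]

theorem sig_front (hε : ε o = 0) (k : ℕ) : sig R ε o a k 0 = a := by
  induction k with
  | zero => simp [sig]
  | succ k ih => rw [sig_succ, bet_zero, out, ih, hε, add_zero]

theorem bet_one (hε : ε o = 0) (k : ℕ) : bet R ε o a k 1 = R a o := by
  rw [bet_succ, bet_zero, sig_front R ε o a hε, tr, hε, add_zero]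

/-- The seed: a single signal `a` at the origin. -/
def seed : ℤ → B × ZMod s := fun i => if i = 0 then (o, a) else (o, 0)

/-- Explicit description of the orbit of the seed. -/
theorem orbit_eq (hε : ε o = 0) (hR : R 0 o = o) (t : ℕ) :
    (∀ i : ℤ, i < -(t : ℤ) ∨ 0 < i → (auto R ε)^[t] (seed o a) i = (o, 0)) ∧
    (∀ k j : ℕ, k + j = t →
      (auto R ε)^[t] (seed o a) (-(k : ℤ)) = (bet R ε o a k j, sig R ε o a k j)) := by
  have htr : tr R ε o 0 = o := by rw [tr, hε, add_zero, hR]
  have hout : out ε o (0 : ZMod s) = 0 := by rw [out, hε, add_zero]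
  induction t with
  | zero =>
    constructor
    · intro i hi
      have : i ≠ 0 := by
        rintro rfl
        simp at hi
      simp [seed, this]
    · intro k j h
      obtain ⟨rfl, rfl⟩ : k = 0 ∧ j = 0 := by omega
      simp [seed, bet_zero, sig]
  | succ t ih =>
    obtain ⟨ih1, ih2⟩ := ih
    constructor
    · intro i hi
      rw [Function.iterate_succ_apply']
      have e1 : (auto R ε)^[t] (seed o a) i = (o, 0) := by
        apply ih1
        push_cast at hi
        omega
      have e2 : (auto R ε)^[t] (seed o a) (i + 1) = (o, 0) := by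
        apply ih1
        push_cast at hi
        omega
      simp only [auto, e1, e2, htr, hout]
    · intro k j h
      rw [Function.iterate_succ_apply']
      have hb : tr R ε ((auto R ε)^[t] (seed o a) (-(k : ℤ))).1
          ((auto R ε)^[t] (seed o a) (-(k : ℤ))).2 = bet R ε o a k j := by
        rcases Nat.eq_zero_or_pos j with rfl | hj
        · have : (auto R ε)^[t] (seed o a) (-(k : ℤ)) = (o, 0) := by
            apply ih1
            left
            omega
          rw [this, htr, bet_zero]
        · obtain ⟨j, rfl⟩ : ∃ j', j = j' + 1 := ⟨j - 1, by omega⟩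
          rw [ih2 k j (by omega), bet_succ]
      have hs : out ε ((auto R ε)^[t] (seed o a) (-(k : ℤ) + 1)).1
          ((auto R ε)^[t] (seed o a) (-(k : ℤ) + 1)).2 = sig R ε o a k j := by
        rcases Nat.eq_zero_or_pos k with rfl | hk
        · have : (auto R ε)^[t] (seed o a) (-((0 : ℕ) : ℤ) + 1) = (o, 0) := by
            apply ih1
            right
            simp
          obtain ⟨j, rfl⟩ : ∃ j', j = j' + 1 := ⟨j - 1, by omega⟩
          rw [this, hout, sig_zero_succ]
        · obtain ⟨k, rfl⟩ : ∃ k', k = k' + 1 := ⟨k - 1, by omega⟩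
          have : -((k + 1 : ℕ) : ℤ) + 1 = -(k : ℤ) := by push_cast; ring
          rw [this, ih2 k j (by omega), sig_succ]
      simp only [auto]
      rw [hb, hs]

/-! #### The words of signals in front of the seed -/

/-- State of the transducer after a word. -/
def stW (b : B) : ∀ n, Tup (ZMod s) n → B
  | 0, _ => b
  | n + 1, w => tr R ε (stW b n w.1) w.2

/-- Action of the transducer on words. -/
def DW (b : B) : ∀ n, Tup (ZMod s) n → Tup (ZMod s) n
  | 0, w => w
  | n + 1, w => (DW b n w.1, w.2 + ε (stW R ε b n w.1))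

theorem DW_injective (b : B) : ∀ n, Injective (DW R ε b n)
  | 0 => fun _ _ h => h
  | n + 1 => by
    have ih := DW_injective b n
    rintro ⟨w, z⟩ ⟨w', z'⟩ h
    have h1 : DW R ε b n w = DW R ε b n w' := congrArg Prod.fst h
    have h2 : z + ε (stW R ε b n w) = z' + ε (stW R ε b n w') := congrArg Prod.snd h
    have h3 := ih h1
    subst h3
    have h4 : z = z' := add_right_cancel h2
    subst h4
    rfl

/-- The transition operator on functions. -/
def T (h : B → ZMod s) : B → ZMod s := fun β => ∑ v, h (R v β)

theorem sum_tr (h : B → ZMod s) (β : B) : ∑ σ, h (tr R ε β σ) = T R h β := by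
  unfold T tr
  exact Equiv.sum_comp (Equiv.addRight (ε β)) (fun v => h (R v β))

theorem sum_stW (b : B) : ∀ (n : ℕ) (h : B → ZMod s),
    ∑ w : Tup (ZMod s) n, h (stW R ε b n w) = ((T R)^[n] h) b
  | 0, h => by
    show ∑ w : Unit, h b = h b
    simp
  | n + 1, h => by
    have ih := sum_stW b n (T R h)
    rw [Function.iterate_succ_apply, ← ih]
    show ∑ w : Tup (ZMod s) n × ZMod s, h (tr R ε (stW R ε b n w.1) w.2) = _
    rw [Fintype.sum_prod_type]
    exact Finset.sum_congr rfl fun w _ => sum_tr R ε h (stW R ε b n w)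

theorem DW_transitive (b : B) (hu : ∀ n, IsUnit (((T R)^[n] ε) b)) :
    ∀ n (w₀ w : Tup (ZMod s) n), ∃ k, (DW R ε b n)^[k] w₀ = w
  | 0 => fun _ _ => ⟨0, rfl⟩
  | n + 1 => by
    have ih := DW_transitive b hu n
    rintro ⟨w₀, z₀⟩ w
    have h1 : IsUnit (∑ w : Tup (ZMod s) n, ε (stW R ε b n w)) := by
      rw [sum_stW]; exact hu n
    exact skew_transitive (DW_injective R ε b n) w₀ (ih w₀) (fun w => ε (stW R ε b n w)) h1 z₀ w

theorem front_word (hε : ε o = 0) (n k : ℕ) :
    stW R ε (R a o) n (tup (fun i => sig R ε o a k (1 + i)) n) = bet R ε o a k (1 + n) ∧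
    tup (fun i => sig R ε o a (k + 1) (1 + i)) n =
      DW R ε (R a o) n (tup (fun i => sig R ε o a k (1 + i)) n) := by
  induction n with
  | zero => exact ⟨(bet_one R ε o a hε k).symm, rfl⟩
  | succ n ih =>
    obtain ⟨ih1, ih2⟩ := ih
    constructor
    · show tr R ε (stW R ε (R a o) n (tup (fun i => sig R ε o a k (1 + i)) n))
        (sig R ε o a k (1 + n)) = _
      rw [ih1]; rfl
    · show (tup (fun i => sig R ε o a (k + 1) (1 + i)) n, sig R ε o a (k + 1) (1 + n)) =
        (DW R ε (R a o) n (tup (fun i => sig R ε o a k (1 + i)) n),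
          sig R ε o a k (1 + n) + ε (stW R ε (R a o) n (tup (fun i => sig R ε o a k (1 + i)) n)))
      rw [ih1, ih2]; rfl

theorem front_all (hε : ε o = 0) (hu : ∀ n, IsUnit (((T R)^[n] ε) (R a o)))
    (n : ℕ) (f : ℕ → ZMod s) : ∃ k, ∀ i < n, sig R ε o a k (1 + i) = f i := by
  have h1 : ∀ k, tup (fun i => sig R ε o a k (1 + i)) n =
      (DW R ε (R a o) n)^[k] (tup (fun i => sig R ε o a 0 (1 + i)) n) := by
    intro k
    induction k with
    | zero => rfl
    | succ k ih =>
      rw [Function.iterate_succ_apply', ← ih]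
      exact (front_word R ε o a hε n k).2
  obtain ⟨k, hk⟩ := DW_transitive R ε (R a o) hu n
    (tup (fun i => sig R ε o a 0 (1 + i)) n) (tup f n)
  refine ⟨k, tup_inj ?_⟩
  rw [h1, hk]

/-! #### Tape words -/

/-- The moves of the tape, indexed by the outgoing signal. -/
def QT : ∀ m, ZMod s → Tup B m → Tup B m
  | 0, _, u => u
  | m + 1, v, u => (QT m (v - ε u.2) u.1, R v u.2)

theorem QT_injective : ∀ (m : ℕ) (v : ZMod s), Injective (QT R ε m v)
  | 0, _ => fun _ _ h => h
  | m + 1, v => by
    rintro ⟨u, β⟩ ⟨u', β'⟩ h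
    have h1 : R v β = R v β' := congrArg Prod.snd h
    have h2 := (R v).injective h1
    subst h2
    have h3 : QT R ε m (v - ε β) u = QT R ε m (v - ε β) u' := congrArg Prod.fst h
    have h4 := QT_injective m _ h3
    subst h4
    rfl

/-- The moves of the tape, indexed by the incoming signal, with the outgoing signal. -/
def MT : ∀ m, ZMod s → Tup B m → Tup B m × ZMod s
  | 0, σ, u => (u, σ)
  | m + 1, σ, u => (((MT m σ u.1).1, tr R ε u.2 (MT m σ u.1).2), out ε u.2 (MT m σ u.1).2)

theorem exists_MT : ∀ (m : ℕ) (v : ZMod s) (u : Tup B m), ∃ σ, MT R ε m σ u = (QT R ε m v u, v)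
  | 0, v, _ => ⟨v, rfl⟩
  | m + 1, v, u => by
    obtain ⟨σ, hσ⟩ := exists_MT m (v - ε u.2) u.1
    refine ⟨σ, ?_⟩
    show (((MT R ε m σ u.1).1, tr R ε u.2 (MT R ε m σ u.1).2), out ε u.2 (MT R ε m σ u.1).2) =
      ((QT R ε m (v - ε u.2) u.1, R v u.2), v)
    rw [hσ]
    simp only [tr, out, sub_add_cancel]

/-- Reachability between tape words. -/
def Reach (m : ℕ) : Tup B m → Tup B m → Prop :=
  Relation.ReflTransGen (fun u u' => ∃ v, QT R ε m v u = u')

theorem Reach.step {m : ℕ} (v : ZMod s) (u : Tup B m) : Reach R ε m u (QT R ε m v u) :=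
  Relation.ReflTransGen.single ⟨v, rfl⟩

theorem Reach.iter {m : ℕ} (v : ZMod s) (u : Tup B m) (k : ℕ) :
    Reach R ε m u ((QT R ε m v)^[k] u) := by
  induction k with
  | zero => exact Relation.ReflTransGen.refl
  | succ k ih =>
    rw [Function.iterate_succ_apply']
    exact Relation.ReflTransGen.trans ih (Reach.step R ε v _)

theorem Reach.back {m : ℕ} (v : ZMod s) (u : Tup B m) : Reach R ε m (QT R ε m v u) u := by
  have hper : u ∈ Function.periodicPts (QT R ε m v) :=
    Function.Injective.mem_periodicPts (QT_injective R ε m v) u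
  obtain ⟨k, hk, hk'⟩ := hper
  obtain ⟨k, rfl⟩ : ∃ k', k = k' + 1 := ⟨k - 1, by omega⟩
  have h : (QT R ε m v)^[k] (QT R ε m v u) = u := by
    rw [← Function.iterate_succ_apply]; exact hk'
  have := Reach.iter R ε v (QT R ε m v u) k
  rwa [h] at this

theorem Reach.symm {m : ℕ} {u u' : Tup B m} (h : Reach R ε m u u') : Reach R ε m u' u := by
  induction h with
  | refl => exact Relation.ReflTransGen.refl
  | tail _ h2 ih =>
    obtain ⟨v, rfl⟩ := h2
    exact Relation.ReflTransGen.trans (Reach.back R ε v _) ih

theorem Reach.trans' {m : ℕ} {u u' u'' : Tup B m} (h : Reach R ε m u u')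
    (h' : Reach R ε m u' u'') : Reach R ε m u u'' := Relation.ReflTransGen.trans h h'

theorem QT_surjective (m : ℕ) (v : ZMod s) : Surjective (QT R ε m v) :=
  Finite.injective_iff_surjective.mp (QT_injective R ε m v)

theorem reach_move {m : ℕ} (x : ZMod s) (u : Tup B m) (β : B) :
    Reach R ε (m + 1) (u, β) (QT R ε m x u, tr R ε β x) := by
  have h := Reach.step R ε (m := m + 1) (x + ε β) (u, β)
  have e : QT R ε (m + 1) (x + ε β) (u, β) = (QT R ε m x u, tr R ε β x) := by
    show (QT R ε m (x + ε β - ε β) u, R (x + ε β) β) = _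
    rw [add_sub_cancel_right]; rfl
  rwa [e] at h

/-- Every tape word is reachable from every other one. -/
theorem reach_all
    (hfold : ∀ r : B → B → Prop, Equivalence r →
      (∀ x β β', r β β' ↔ r (tr R ε β x) (tr R ε β' x)) → ∀ β β', r β β') :
    ∀ (m : ℕ) (u u' : Tup B m), Reach R ε m u u'
  | 0 => fun _ _ => Relation.ReflTransGen.refl
  | m + 1 => by
    have ih := reach_all hfold m
    have hr : ∀ β β', ∀ u : Tup B m, Reach R ε (m + 1) (u, β) (u, β') := by
      apply hfold (fun β β' => ∀ u : Tup B m, Reach R ε (m + 1) (u, β) (u, β'))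
      · refine ⟨fun β u => Relation.ReflTransGen.refl, fun h u => Reach.symm R ε (h u),
          fun h h' u => Reach.trans' R ε (h u) (h' u)⟩
      · intro x β β'
        constructor
        · intro h u
          obtain ⟨w, rfl⟩ := QT_surjective R ε m x u
          exact Reach.trans' R ε (Reach.symm R ε (reach_move R ε x w β))
            (Reach.trans' R ε (h w) (reach_move R ε x w β'))
        · intro h u
          exact Reach.trans' R ε (reach_move R ε x u β)
            (Reach.trans' R ε (h _) (Reach.symm R ε (reach_move R ε x u β')))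
    have h2 : ∀ (β : B) (u u' : Tup B m), Reach R ε m u u' →
        Reach R ε (m + 1) (u, β) (u', β) := by
      intro β u u' h
      induction h with
      | refl => exact Relation.ReflTransGen.refl
      | tail _ h2 ih2 =>
        obtain ⟨v, rfl⟩ := h2
        exact Reach.trans' R ε ih2 (Reach.trans' R ε (reach_move R ε v _ β) (hr _ _ _))
    rintro ⟨u, β⟩ ⟨u', β'⟩
    exact Reach.trans' R ε (h2 β u u' (ih u u')) (hr β β' u')

/-- Feeding the first `J` signals of `f` to the tape word `u`. -/
def run (m : ℕ) : (ℕ → ZMod s) → ℕ → Tup B m → Tup B m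
  | _, 0, u => u
  | f, J + 1, u => run m (fun j => f (j + 1)) J (MT R ε m (f 0) u).1

theorem exists_run {m : ℕ} {u u' : Tup B m} (h : Reach R ε m u u') (w : ℕ → ZMod s) :
    ∃ (J : ℕ) (f : ℕ → ZMod s), run R ε m f J u = u' ∧ ∀ j, f (J + j) = w j := by
  induction h using Relation.ReflTransGen.head_induction_on with
  | refl => exact ⟨0, w, rfl, fun j => by rw [Nat.zero_add]⟩
  | head h1 _ ih =>
    obtain ⟨v, rfl⟩ := h1
    rename_i u1 _
    obtain ⟨J, f, hf1, hf2⟩ := ih
    obtain ⟨σ, hσ⟩ := exists_MT R ε m v u1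
    refine ⟨J + 1, fun j => Nat.casesOn j σ f, ?_, ?_⟩
    · show run R ε m f J (MT R ε m σ u1).1 = u'
      rw [hσ]; exact hf1
    · intro j
      have : J + 1 + j = (J + j) + 1 := by ring
      rw [this]
      exact hf2 j

theorem run_congr {m : ℕ} : ∀ (J : ℕ) (f g : ℕ → ZMod s) (u : Tup B m),
    (∀ j < J, f j = g j) → run R ε m f J u = run R ε m g J u
  | 0, _, _, _, _ => rfl
  | J + 1, f, g, u, h => by
    show run R ε m (fun j => f (j + 1)) J (MT R ε m (f 0) u).1 =
      run R ε m (fun j => g (j + 1)) J (MT R ε m (g 0) u).1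
    rw [h 0 (Nat.succ_pos J)]
    exact run_congr J _ _ _ fun j hj => h (j + 1) (Nat.succ_lt_succ hj)

theorem MT_grid (K j : ℕ) : ∀ m,
    MT R ε m (sig R ε o a K j) (tup (fun i => bet R ε o a (K + i) j) m) =
      (tup (fun i => bet R ε o a (K + i) (j + 1)) m, sig R ε o a (K + m) j)
  | 0 => rfl
  | m + 1 => by
    have ih := MT_grid K j m
    show (((MT R ε m (sig R ε o a K j) (tup (fun i => bet R ε o a (K + i) j) m)).1,
      tr R ε (bet R ε o a (K + m) j)
        (MT R ε m (sig R ε o a K j) (tup (fun i => bet R ε o a (K + i) j) m)).2),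
      out ε (bet R ε o a (K + m) j)
        (MT R ε m (sig R ε o a K j) (tup (fun i => bet R ε o a (K + i) j) m)).2) = _
    rw [ih]
    rfl

theorem run_grid (K m : ℕ) : ∀ (J j : ℕ),
    run R ε m (fun l => sig R ε o a K (j + l)) J (tup (fun i => bet R ε o a (K + i) j) m) =
      tup (fun i => bet R ε o a (K + i) (j + J)) m
  | 0, _ => rfl
  | J + 1, j => by
    have ih := run_grid K m J (j + 1)
    show run R ε m (fun l => sig R ε o a K (j + (l + 1))) J
      (MT R ε m (sig R ε o a K j) (tup (fun i => bet R ε o a (K + i) j) m)).1 = _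
    rw [MT_grid]
    have e1 : (fun l => sig R ε o a K (j + (l + 1))) = fun l => sig R ε o a K (j + 1 + l) := by
      funext l
      congr 1
      ring
    have e2 : j + (J + 1) = j + 1 + J := by ring
    rw [e1, e2]
    exact ih

/-- All pairs of a tape word and a word of incoming signals occur. -/
theorem grid_all (hε : ε o = 0) (hu : ∀ n, IsUnit (((T R)^[n] ε) (R a o)))
    (hfold : ∀ r : B → B → Prop, Equivalence r →
      (∀ x β β', r β β' ↔ r (tr R ε β x) (tr R ε β' x)) → ∀ β β', r β β')
    (m n : ℕ) (u : ℕ → B) (w : ℕ → ZMod s) :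
    ∃ K J, (∀ i < m, bet R ε o a (K + i) J = u i) ∧ ∀ j < n, sig R ε o a K (J + j) = w j := by
  obtain ⟨J, f, hf1, hf2⟩ := exists_run R ε
    (reach_all R ε hfold m (tup (fun _ => R a o) m) (tup u m)) w
  obtain ⟨K, hK⟩ := front_all R ε o a hε hu (J + n) f
  refine ⟨K, 1 + J, ?_, ?_⟩
  · apply tup_inj
    rw [← run_grid R ε o a K m J 1]
    have e1 : (fun i => bet R ε o a (K + i) 1) = fun _ => R a o := by
      funext i
      exact bet_one R ε o a hε (K + i)
    rw [e1, run_congr R ε J _ f _ (fun j hj => hK j (by omega))]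
    exact hf1
  · intro j hj
    rw [← hf2 j, ← hK (J + j) (by omega)]
    congr 1
    ring

/-! #### Rows -/

/-- Inverse of the local map. -/
def pinv (p : B × ZMod s) : B × ZMod s := ((R p.2).symm p.1, p.2 - ε ((R p.2).symm p.1))

theorem tr_pinv (p : B × ZMod s) : tr R ε (pinv R ε p).1 (pinv R ε p).2 = p.1 := by
  simp [tr, pinv]

theorem out_pinv (p : B × ZMod s) : out ε (pinv R ε p).1 (pinv R ε p).2 = p.2 := by
  simp [out, pinv]

/-- Backward computation of the antidiagonals. -/
def anti (r : ℕ → B × ZMod s) : ℕ → ℕ → B × ZMod s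
  | 0 => r
  | t + 1 => fun k => pinv R ε ((anti r t k).1, (anti r t (k + 1)).2)

theorem anti_all (hε : ε o = 0) (hu : ∀ n, IsUnit (((T R)^[n] ε) (R a o)))
    (hfold : ∀ r : B → B → Prop, Equivalence r →
      (∀ x β β', r β β' ↔ r (tr R ε β x) (tr R ε β' x)) → ∀ β β', r β β')
    (M : ℕ) (r : ℕ → B × ZMod s) :
    ∃ K J, ∀ k ≤ M, (bet R ε o a (K + k) (J + (M - k)), sig R ε o a (K + k) (J + (M - k))) =
      r k := by
  obtain ⟨K, J, h1, h2⟩ := grid_all R ε o a hε hu hfold (M + 1) (M + 1)
    (fun i => (anti R ε r (M - i) i).1) (fun j => (anti R ε r (M - j) 0).2)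
  refine ⟨K, J, ?_⟩
  have key : ∀ d k j : ℕ, k + j = d → d ≤ M →
      (bet R ε o a (K + k) (J + j), sig R ε o a (K + k) (J + j)) = anti R ε r (M - d) k := by
    intro d
    induction d with
    | zero =>
      intro k j h _
      obtain ⟨rfl, rfl⟩ : k = 0 ∧ j = 0 := by omega
      have e1 := h1 0 (by omega)
      have e2 := h2 0 (by omega)
      simp only [Nat.sub_zero] at e1 e2
      simp only [Nat.sub_zero]
      show (bet R ε o a (K + 0) J, sig R ε o a K (J + 0)) = _
      rw [e1, e2]
    | succ d ih =>
      intro k j h hd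
      have ht : M - d = (M - (d + 1)) + 1 := by omega
      apply Prod.ext
      · show bet R ε o a (K + k) (J + j) = (anti R ε r (M - (d + 1)) k).1
        rcases Nat.eq_zero_or_pos j with rfl | hj
        · have hk : k = d + 1 := by omega
          subst hk
          exact h1 (d + 1) (by omega)
        · obtain ⟨j, rfl⟩ : ∃ j', j = j' + 1 := ⟨j - 1, by omega⟩
          have e := ih k j (by omega) (by omega)
          rw [← Nat.add_assoc, bet_succ]
          rw [ht] at e
          have e1 := congrArg Prod.fst e
          have e2 := congrArg Prod.snd e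
          simp only at e1 e2
          rw [e1, e2]
          exact tr_pinv R ε _
      · show sig R ε o a (K + k) (J + j) = (anti R ε r (M - (d + 1)) k).2
        rcases Nat.eq_zero_or_pos k with rfl | hk
        · have hj : j = d + 1 := by omega
          subst hj
          exact h2 (d + 1) (by omega)
        · obtain ⟨k, rfl⟩ : ∃ k', k = k' + 1 := ⟨k - 1, by omega⟩
          have e := ih k j (by omega) (by omega)
          rw [← Nat.add_assoc, sig_succ]
          rw [ht] at e
          have e1 := congrArg Prod.fst e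
          have e2 := congrArg Prod.snd e
          simp only at e1 e2
          rw [e1, e2]
          exact out_pinv R ε _
  intro k hk
  have := key M k (M - k) (by omega) le_rfl
  simpa [anti] using this

/-- Every word appears in the orbit of the seed. -/
theorem all_words (hε : ε o = 0) (hR : R 0 o = o)
    (hu : ∀ n, IsUnit (((T R)^[n] ε) (R a o)))
    (hfold : ∀ r : B → B → Prop, Equivalence r →
      (∀ x β β', r β β' ↔ r (tr R ε β x) (tr R ε β' x)) → ∀ β β', r β β')
    (w : List (B × ZMod s)) : ∃ n : ℕ, Appears w ((auto R ε)^[n] (seed o a)) := by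
  rcases Nat.eq_zero_or_pos w.length with h0 | hpos
  · exact ⟨0, 0, fun l hl => absurd hl (by omega)⟩
  obtain ⟨M, hM⟩ : ∃ M, w.length = M + 1 := ⟨w.length - 1, by omega⟩
  obtain ⟨K, J, h⟩ := anti_all R ε o a hε hu hfold M
    (fun k => if hk : M - k < w.length then w[M - k] else (o, 0))
  refine ⟨K + J + M, -((K + M : ℕ) : ℤ) - 1, ?_⟩
  intro l hl
  have hl' : l ≤ M := by omega
  have e1 : -((K + M : ℕ) : ℤ) - 1 + 1 + (l : ℤ) = -((K + (M - l) : ℕ) : ℤ) := by
    push_cast [hl']
    ring
  rw [e1, (orbit_eq R ε o a hε hR (K + J + M)).2 (K + (M - l)) (J + (M - (M - l))) (by omega),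
    h (M - l) (by omega)]
  have e2 : M - (M - l) = l := by omega
  simp only [e2, hl, dite_true]

theorem auto_bijective : Bijective (auto R ε) := by
  rw [Function.bijective_iff_has_inverse]
  refine ⟨fun y i => pinv R ε ((y i).1, (y (i - 1)).2), ?_, ?_⟩
  · intro x
    funext i
    show pinv R ε (tr R ε (x i).1 (x i).2, out ε (x (i - 1 + 1)).1 (x (i - 1 + 1)).2) = x i
    rw [sub_add_cancel]
    simp [pinv, tr, out]
  · intro y
    funext i
    show (tr R ε (pinv R ε ((y i).1, (y (i - 1)).2)).1 (pinv R ε ((y i).1, (y (i - 1)).2)).2,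
      out ε (pinv R ε ((y (i + 1)).1, (y (i + 1 - 1)).2)).1
        (pinv R ε ((y (i + 1)).1, (y (i + 1 - 1)).2)).2) = y i
    rw [tr_pinv, out_pinv, add_sub_cancel_right]

end Automaton

/-! ### Transport to an arbitrary state set -/

/-- The conclusion of the main theorem. -/
def Good (S : Type) (z : S) : Prop :=
  ∃ (F : (ℤ → S) → (ℤ → S)) (x : ℤ → S), IsWUPG z F x ∧ Function.Bijective F ∧
    (∃ f : S → S → S, ∀ y i, F y i = f (y i) (y (i + 1))) ∧ {i | x i ≠ z}.ncard = 1

theorem transport {B : Type} [Fintype B] {s : ℕ} [NeZero s]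
    (R : ZMod s → Equiv.Perm B) (ε : B → ZMod s) (o : B) (a : ZMod s) (ha : a ≠ 0)
    (hε : ε o = 0) (hR : R 0 o = o)
    (hu : ∀ n, IsUnit (((T R)^[n] ε) (R a o)))
    (hfold : ∀ r : B → B → Prop, Equivalence r →
      (∀ x β β', r β β' ↔ r (tr R ε β x) (tr R ε β' x)) → ∀ β β', r β β')
    (S : Type) [Fintype S] (z : S) (hS : Fintype.card S = Fintype.card B * s) : Good S z := by
  classical
  have hcard : Fintype.card (B × ZMod s) = Fintype.card S := by
    rw [Fintype.card_prod, ZMod.card, hS]
  let e₀ : B × ZMod s ≃ S := Fintype.equivOfCardEq hcard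
  let e : B × ZMod s ≃ S := e₀.trans (Equiv.swap (e₀ (o, 0)) z)
  have he : e (o, 0) = z := by simp [e]
  let F : (ℤ → S) → (ℤ → S) := fun y i => e (auto R ε (fun i => e.symm (y i)) i)
  let x : ℤ → S := fun i => e (seed o a i)
  have hiter : ∀ n : ℕ, F^[n] x = fun i => e ((auto R ε)^[n] (seed o a) i) := by
    intro n
    induction n with
    | zero => rfl
    | succ n ih =>
      rw [Function.iterate_succ_apply', ih, Function.iterate_succ_apply']
      funext i
      simp [F]
  have hx : {i | x i ≠ z} = {(0 : ℤ)} := by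
    ext i
    simp only [x, Set.mem_ofPred_eq, Set.mem_singleton_iff]
    constructor
    · intro h
      by_contra hi
      apply h
      simp [seed, hi, he]
    · rintro rfl h
      have : seed o a 0 = (o, 0) := e.injective (h.trans he.symm)
      simp [seed] at this
      exact ha this
  have hF2 : ∀ y i, F y i = e (tr R ε (e.symm (y i)).1 (e.symm (y i)).2,
      out ε (e.symm (y (i + 1))).1 (e.symm (y (i + 1))).2) := fun y i => rfl
  refine ⟨F, x, ⟨?_, ?_, ?_, ?_⟩, ?_, ?_, ?_⟩
  · refine ⟨2, ![0, 1], fun p => e (tr R ε (e.symm (p 0)).1 (e.symm (p 0)).2,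
      out ε (e.symm (p 1)).1 (e.symm (p 1)).2), ?_, ?_⟩
    · intro i j hij
      fin_cases i <;> fin_cases j <;> simp at hij ⊢
    · intro y i
      rw [hF2]
      simp
  · funext i
    rw [hF2]
    have : e.symm z = (o, 0) := by rw [← he, Equiv.symm_apply_apply]
    simp only [this]
    rw [tr, out, hε, add_zero, hR, he]
  · rw [hx]; exact Set.finite_singleton _
  · intro w
    obtain ⟨n, j, hj⟩ := all_words R ε o a hε hR hu hfold (w.map e.symm)
    refine ⟨n, j, ?_⟩
    intro l hl
    have := hj l (by simpa using hl)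
    rw [hiter]
    simp only
    rw [this]
    simp
  · have h1 : Bijective (fun (y : ℤ → S) => fun i => e.symm (y i)) :=
      (Equiv.arrowCongr (Equiv.refl ℤ) e.symm).bijective
    have h2 : Bijective (fun (y : ℤ → B × ZMod s) => fun i => e (y i)) :=
      (Equiv.arrowCongr (Equiv.refl ℤ) e).bijective
    exact h2.comp ((auto_bijective R ε).comp h1)
  · exact ⟨fun p q => e (tr R ε (e.symm p).1 (e.symm p).2, out ε (e.symm q).1 (e.symm q).2),
      fun y i => hF2 y i⟩
  · rw [hx, Set.ncard_singleton]

/-! ### The three families -/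

section Large

variable (c s : ℕ) [NeZero s]

/-- The cell permutations for at least four tape symbols. -/
def RL (v : ZMod s) : Equiv.Perm (Fin (c + 4)) :=
  if v = 1 then finRotate (c + 4)
  else Equiv.swap ⟨c + 2, by omega⟩ ⟨c + 3, by omega⟩

/-- The increments for at least four tape symbols. -/
def eL (β : Fin (c + 4)) : ZMod s := if β.val = 1 then 1 else 0

theorem RL_one (j : ℕ) (hj : j < c + 3) :
    RL c s 1 ⟨j, by omega⟩ = ⟨j + 1, by omega⟩ := by
  simp only [RL, if_true]
  exact finRotate_of_lt hj

theorem RL_other {v : ZMod s} (hv : v ≠ 1) (j : ℕ) (hj : j < c + 2) :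
    RL c s v ⟨j, by omega⟩ = ⟨j, by omega⟩ := by
  simp only [RL, if_neg hv]
  apply Equiv.swap_apply_of_ne_of_ne
  · intro h
    have := congrArg Fin.val h
    simp only at this
    omega
  · intro h
    have := congrArg Fin.val h
    simp only at this
    omega

theorem RL_other' {v : ZMod s} (hv : v ≠ 1) :
    RL c s v ⟨c + 2, by omega⟩ = ⟨c + 3, by omega⟩ := by
  simp only [RL, if_neg hv]
  exact Equiv.swap_apply_left _ _

theorem TL (h : Fin (c + 4) → ZMod s) (β γ δ : Fin (c + 4)) (h1 : RL c s 1 β = γ)
    (h2 : ∀ v, v ≠ 1 → RL c s v β = δ) : T (RL c s) h β = h γ - h δ := by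
  have e : ∀ v : ZMod s, h (RL c s v β) = (if v = 1 then h γ - h δ else 0) + h δ := by
    intro v
    by_cases hv : v = 1
    · subst hv; rw [h1]; simp
    · rw [h2 v hv, if_neg hv, zero_add]
  unfold T
  simp_rw [e]
  rw [Finset.sum_add_distrib]
  simp

theorem eL_iter (n : ℕ) :
    ((T (RL c s))^[n] (eL c s)) ⟨1, by omega⟩ = (-1) ^ n ∧
    ∀ (j : ℕ) (hj : j ≤ c + 2), 2 ≤ j → ((T (RL c s))^[n] (eL c s)) ⟨j, by omega⟩ = 0 := by
  induction n with
  | zero =>
    constructor
    · simp [eL]
    · intro j hj hj2
      have : j ≠ 1 := by omega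
      simp [eL, this]
  | succ n ih =>
    obtain ⟨ih1, ih2⟩ := ih
    rw [Function.iterate_succ_apply']
    constructor
    · rw [TL c s _ ⟨1, by omega⟩ ⟨2, by omega⟩ ⟨1, by omega⟩ (RL_one c s 1 (by omega))
        (fun v hv => RL_other c s hv 1 (by omega)), ih1, ih2 2 (by omega) le_rfl]
      ring
    · intro j hj hj2
      rcases Nat.lt_or_ge j (c + 2) with h | h
      · rw [TL c s _ ⟨j, by omega⟩ ⟨j + 1, by omega⟩ ⟨j, by omega⟩ (RL_one c s j (by omega))
          (fun v hv => RL_other c s hv j (by omega)), ih2 (j + 1) (by omega) (by omega),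
          ih2 j hj hj2, sub_zero]
      · obtain rfl : j = c + 2 := by omega
        rw [TL c s _ ⟨c + 2, by omega⟩ ⟨c + 3, by omega⟩ ⟨c + 3, by omega⟩
          (RL_one c s (c + 2) (by omega)) (fun v hv => RL_other' c s hv), sub_self]

theorem good_large (hs : 2 ≤ s) (S : Type) [Fintype S] (z : S)
    (hS : Fintype.card S = (c + 4) * s) : Good S z := by
  have : Fact (1 < s) := ⟨hs⟩
  have h10 : (1 : ZMod s) ≠ 0 := one_ne_zero
  have h21 : (1 : ZMod s) + 1 ≠ 1 := by
    intro h
    simp at h
  have hR10 : RL c s 1 (⟨0, by omega⟩ : Fin (c + 4)) = ⟨1, by omega⟩ :=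
    RL_one c s 0 (by omega)
  refine transport (RL c s) (eL c s) (⟨0, by omega⟩ : Fin (c + 4)) 1 h10 ?_ ?_ ?_ ?_ S z ?_
  · simp [eL]
  · exact RL_other c s h10.symm 0 (by omega)
  · intro n
    rw [hR10, (eL_iter c s n).1]
    exact (isUnit_one.neg).pow n
  · intro r hr hcl
    -- values of the transition map
    have t11 : tr (RL c s) (eL c s) ⟨1, by omega⟩ 1 = ⟨1, by omega⟩ := by
      have : eL c s ⟨1, by omega⟩ = 1 := by simp [eL]
      rw [tr, this]
      exact RL_other c s h21 1 (by omega)
    have tj1 : ∀ (j : ℕ) (hj : j < c + 3), j ≠ 1 →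
        tr (RL c s) (eL c s) ⟨j, by omega⟩ 1 = ⟨j + 1, by omega⟩ := by
      intro j hj hj1
      have : eL c s ⟨j, by omega⟩ = 0 := by simp [eL, hj1]
      rw [tr, this, add_zero]
      exact RL_one c s j hj
    have t00 : tr (RL c s) (eL c s) ⟨0, by omega⟩ 0 = ⟨0, by omega⟩ := by
      have : eL c s ⟨0, by omega⟩ = 0 := by simp [eL]
      rw [tr, this, add_zero]
      exact RL_other c s h10.symm 0 (by omega)
    have t10 : tr (RL c s) (eL c s) ⟨1, by omega⟩ 0 = ⟨2, by omega⟩ := by
      have : eL c s ⟨1, by omega⟩ = 1 := by simp [eL]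
      rw [tr, this, zero_add]
      exact RL_one c s 1 (by omega)
    have r01 : r ⟨0, by omega⟩ ⟨1, by omega⟩ := by
      rw [hcl 1, t11, tj1 0 (by omega) (by omega)]
      exact hr.refl _
    have r02 : r ⟨0, by omega⟩ ⟨2, by omega⟩ := by
      have := (hcl 0 _ _).mp r01
      rwa [t00, t10] at this
    have r1 : ∀ (j : ℕ) (hj : j < c + 4), r ⟨1, by omega⟩ ⟨j, hj⟩ := by
      intro j
      induction j with
      | zero => intro _; exact hr.symm r01
      | succ j ih =>
        intro hj
        by_cases hj1 : j = 1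
        · subst hj1
          exact hr.trans (hr.symm r01) r02
        · have := (hcl 1 _ _).mp (ih (by omega))
          rwa [t11, tj1 j (by omega) hj1] at this
    intro β β'
    exact hr.trans (hr.symm (r1 β.val β.isLt)) (r1 β'.val β'.isLt)
  · rw [hS, Fintype.card_fin]

end Large

section Small

/-- The cell permutations for nine states. -/
def R9 : ZMod 3 → Equiv.Perm (Fin 3) :=
  ![Equiv.refl _, Equiv.swap 0 1, (finRotate 3).symm]

/-- The increments for nine states. -/
def e9 : Fin 3 → ZMod 3 := ![0, 1, 2]

theorem good_nine (S : Type) [Fintype S] (z : S) (hS : Fintype.card S = 9) : Good S z := by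
  refine transport R9 e9 0 1 (by decide) (by decide) (by decide) ?_ ?_ S z ?_
  · have h1 : T R9 e9 = e9 := by
      funext β
      fin_cases β <;> decide
    have h2 : ∀ n, (T R9)^[n] e9 = e9 := by
      intro n
      induction n with
      | zero => rfl
      | succ n ih => rw [Function.iterate_succ_apply', ih, h1]
    intro n
    rw [h2]
    have : e9 (R9 1 0) = 1 := by decide
    rw [this]
    exact isUnit_one
  · intro r hr hcl
    have h01 : r 0 1 := by
      rw [hcl 0]
      have h : tr R9 e9 0 0 = tr R9 e9 1 0 := by decide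
      rw [h]
      exact hr.refl _
    have h02 : r 0 2 := by
      rw [hcl 2]
      have h : tr R9 e9 0 2 = tr R9 e9 2 2 := by decide
      rw [h]
      exact hr.refl _
    have h0 : ∀ β, r 0 β := by
      intro β
      fin_cases β
      · exact hr.refl _
      · exact h01
      · exact h02
    exact fun β β' => hr.trans (hr.symm (h0 β)) (h0 β')
  · rw [hS, Fintype.card_fin]

/-- The cell permutations for six states. -/
def R6 : ZMod 2 → Equiv.Perm (Fin 3) := ![Equiv.swap 1 2, Equiv.swap 0 1]

/-- The increments for six states. -/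
def e6 : Fin 3 → ZMod 2 := ![0, 1, 1]

theorem good_six (S : Type) [Fintype S] (z : S) (hS : Fintype.card S = 6) : Good S z := by
  refine transport R6 e6 0 1 (by decide) (by decide) (by decide) ?_ ?_ S z ?_
  · have h1 : T R6 (T R6 e6) = e6 := by
      funext β
      fin_cases β <;> decide
    have h2 : ∀ n, (T R6)^[n] e6 = e6 ∨ (T R6)^[n] e6 = T R6 e6 := by
      intro n
      induction n with
      | zero => left; rfl
      | succ n ih =>
        rw [Function.iterate_succ_apply']
        rcases ih with ih | ih
        · right; rw [ih]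
        · left; rw [ih, h1]
    intro n
    rcases h2 n with h | h
    · rw [h]
      have : e6 (R6 1 0) = 1 := by decide
      rw [this]
      exact isUnit_one
    · rw [h]
      have : T R6 e6 (R6 1 0) = 1 := by decide
      rw [this]
      exact isUnit_one
  · intro r hr hcl
    have h01 : r 0 1 := by
      rw [hcl 0]
      have h : tr R6 e6 0 0 = tr R6 e6 1 0 := by decide
      rw [h]
      exact hr.refl _
    have h02 : r 0 2 := by
      rw [hcl 1]
      have h : tr R6 e6 0 1 = tr R6 e6 2 1 := by decide
      rw [h]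
      exact hr.refl _
    have h0 : ∀ β, r 0 β := by
      intro β
      fin_cases β
      · exact hr.refl _
      · exact h01
      · exact h02
    exact fun β β' => hr.trans (hr.symm (h0 β)) (h0 β')
  · rw [hS, Fintype.card_fin]

end Small

/-- **Weak universal pattern generators exist for every composite number of states other than
four.**  If `S` is a finite set whose cardinality is composite and greater than four and `z ∈ S`,
then there are a reversible cellular automaton `F` over `S`, with local rule depending on the two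
cells `i` and `i + 1` only and with `z` quiescent, and a configuration `x` with exactly one cell
not in state `z`, such that every finite word over `S` appears in some `F^n(x)`. -/
theorem result (S : Type) [Fintype S] (z : S) (h4 : 4 < Fintype.card S)
    (hp : ¬ (Fintype.card S).Prime) :
    ∃ (F : (ℤ → S) → (ℤ → S)) (x : ℤ → S), IsWUPG z F x ∧ Function.Bijective F ∧
      (∃ f : S → S → S, ∀ y i, F y i = f (y i) (y (i + 1))) ∧ {i | x i ≠ z}.ncard = 1 := by
  obtain ⟨p, q, hp2, hpq, hn⟩ : ∃ p q, 2 ≤ p ∧ p ≤ q ∧ Fintype.card S = q * p := by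
    have h1 := Nat.minFac_prime (n := Fintype.card S) (by omega)
    obtain ⟨q, hq⟩ := Nat.minFac_dvd (Fintype.card S)
    refine ⟨(Fintype.card S).minFac, q, h1.two_le, ?_, ?_⟩
    · have h2 := Nat.minFac_sq_le_self (n := Fintype.card S) (by omega) hp
      by_contra h
      rw [not_le] at h
      have : (Fintype.card S).minFac * q < (Fintype.card S).minFac ^ 2 := by
        rw [pow_two]
        exact Nat.mul_lt_mul_of_pos_left h h1.pos
      omega
    · rw [mul_comm]; exact hq
  show Good S z
  have : NeZero p := ⟨by omega⟩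
  rcases Nat.lt_or_ge q 4 with h | h
  · interval_cases q
    · omega
    · omega
    · omega
    · obtain rfl | rfl : p = 2 ∨ p = 3 := by omega
      · exact good_six S z hn
      · exact good_nine S z hn
  · obtain ⟨c, rfl⟩ : ∃ c, q = c + 4 := ⟨q - 4, by omega⟩
    exact good_large c p hp2 S z hn

end Pool.Agent.Results.MP_67ba6e_lc.CompositeStates
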